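import Mathlib

/-!
# Suprema of increasing sequences force a normal cone

If every increasing order bounded sequence of an ordered Banach space has a supremum, then the cone
is normal. If not, take `0 ≤ x n ≤ y n` with `‖y n‖ ≤ 1` and `‖x n‖ > n`. For `α` in `ℓ¹` the order
limit `s α` of the partial sums of `∑ α n • x n` exists, it depends linearly on `α`, and the graph
of `s` is closed since `s α` is within `∑_{n ≥ N} |α n| • y n` (in order) of the `N`-th partial sum.
By the closed graph theorem `s` is bounded, which contradicts `‖s (e n)‖ = ‖x n‖ > n`.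
-/

set_option autoImplicit false

namespace Pool.Agent.Results.MP_5127fd_an.Normal

open Filter Topology Set

section

variable {X : Type*} [NormedAddCommGroup X] [NormedSpace ℝ X] [CompleteSpace X]
  [PartialOrder X] [IsOrderedAddMonoid X] [PosSMulMono ℝ X]

/-- The order tail. -/
noncomputable def tail (y : ℕ → X) (α : ℕ → ℝ) (N : ℕ) : X := ∑' n, |α (n + N)| • y (n + N)

/-- The partial sums. -/
def psum (x : ℕ → X) (α : ℕ → ℝ) (N : ℕ) : X := ∑ n ∈ Finset.range N, α n • x n

/-- `t` is the order limit of the partial sums, with a rate. -/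
def Rel (x y : ℕ → X) (α : ℕ → ℝ) (t : X) : Prop :=
  ∀ N, psum x α N - tail y α N ≤ t ∧ t ≤ psum x α N + tail y α N

/-- `t` is the order limit of the partial sums. -/
def Rel' (x : ℕ → X) (α : ℕ → ℝ) (t : X) : Prop :=
  ∃ r : ℕ → X, Tendsto r atTop (𝓝 0) ∧ ∀ N, psum x α N - r N ≤ t ∧ t ≤ psum x α N + r N

omit [NormedSpace ℝ X] [CompleteSpace X] [PosSMulMono ℝ X] in
theorem orderClosed (hclosed : IsClosed {x : X | 0 ≤ x}) : OrderClosedTopology X := by
  refine ⟨?_⟩
  have : {p : X × X | p.1 ≤ p.2} = (fun p : X × X => p.2 - p.1) ⁻¹' {x : X | 0 ≤ x} := by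
    ext p; simp
  rw [this]
  exact hclosed.preimage (by fun_prop)

omit [CompleteSpace X] [PosSMulMono ℝ X] in
theorem Rel'.le [OrderClosedTopology X] {x : ℕ → X} {α : ℕ → ℝ} {t u : X}
    (ht : Rel' x α t) (hu : Rel' x α u) : t ≤ u := by
  obtain ⟨r, hr, h⟩ := ht
  obtain ⟨q, hq, k⟩ := hu
  have h1 : ∀ N, t ≤ u + (q N + r N) := by
    intro N
    have h2 := (h N).2
    have h3 := (k N).1
    have h4 : psum x α N ≤ u + q N := by
      rw [sub_le_iff_le_add] at h3; exact h3
    calc t ≤ psum x α N + r N := h2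
      _ ≤ (u + q N) + r N := by gcongr
      _ = u + (q N + r N) := by abel
  have h5 : Tendsto (fun N => u + (q N + r N)) atTop (𝓝 (u + (0 + 0))) :=
    tendsto_const_nhds.add (hq.add hr)
  rw [add_zero, add_zero] at h5
  exact ge_of_tendsto' h5 h1

omit [CompleteSpace X] [PosSMulMono ℝ X] in
theorem Rel'.eq [OrderClosedTopology X] {x : ℕ → X} {α : ℕ → ℝ} {t u : X}
    (ht : Rel' x α t) (hu : Rel' x α u) : t = u :=
  le_antisymm (ht.le hu) (hu.le ht)

omit [CompleteSpace X] [PosSMulMono ℝ X] in
theorem Rel'.add {x : ℕ → X} {α β : ℕ → ℝ} {t u : X}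
    (ht : Rel' x α t) (hu : Rel' x β u) : Rel' x (fun n => α n + β n) (t + u) := by
  obtain ⟨r, hr, h⟩ := ht
  obtain ⟨q, hq, k⟩ := hu
  refine ⟨fun n => r n + q n, by simpa using hr.add hq, fun N => ?_⟩
  have e : psum x (fun n => α n + β n) N = psum x α N + psum x β N := by
    simp [psum, add_smul, Finset.sum_add_distrib]
  rw [e]
  constructor
  · calc psum x α N + psum x β N - (r N + q N) = (psum x α N - r N) + (psum x β N - q N) := by abel
      _ ≤ t + u := add_le_add (h N).1 (k N).1
  · calc t + u ≤ (psum x α N + r N) + (psum x β N + q N) := add_le_add (h N).2 (k N).2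
      _ = psum x α N + psum x β N + (r N + q N) := by abel

omit [CompleteSpace X] [PosSMulMono ℝ X] in
theorem Rel'.neg {x : ℕ → X} {α : ℕ → ℝ} {t : X}
    (ht : Rel' x α t) : Rel' x (fun n => - α n) (- t) := by
  obtain ⟨r, hr, h⟩ := ht
  refine ⟨r, hr, fun N => ?_⟩
  have e : psum x (fun n => - α n) N = - psum x α N := by
    simp [psum]
  rw [e]
  constructor
  · calc - psum x α N - r N = - (psum x α N + r N) := by abel
      _ ≤ - t := neg_le_neg (h N).2
  · calc - t ≤ - (psum x α N - r N) := neg_le_neg (h N).1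
      _ = _ := by abel

omit [CompleteSpace X] [IsOrderedAddMonoid X] in
theorem Rel'.smul_nonneg {x : ℕ → X} {α : ℕ → ℝ} {t : X} {c : ℝ} (hc : 0 ≤ c)
    (ht : Rel' x α t) : Rel' x (fun n => c * α n) (c • t) := by
  obtain ⟨r, hr, h⟩ := ht
  refine ⟨fun n => c • r n, by simpa using hr.const_smul c, fun N => ?_⟩
  have e : psum x (fun n => c * α n) N = c • psum x α N := by
    simp [psum, Finset.smul_sum, mul_smul]
  rw [e, ← smul_sub, ← smul_add]
  exact ⟨smul_le_smul_of_nonneg_left (h N).1 hc, smul_le_smul_of_nonneg_left (h N).2 hc⟩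

omit [CompleteSpace X] in
theorem Rel'.smul {x : ℕ → X} {α : ℕ → ℝ} {t : X} (c : ℝ)
    (ht : Rel' x α t) : Rel' x (fun n => c * α n) (c • t) := by
  rcases le_total 0 c with hc | hc
  · exact ht.smul_nonneg hc
  · have := (ht.smul_nonneg (neg_nonneg.2 hc)).neg
    simpa using this

omit [PartialOrder X] [IsOrderedAddMonoid X] [PosSMulMono ℝ X] in
theorem summable_abs_smul {y : ℕ → X} (hy1 : ∀ n, ‖y n‖ ≤ 1) {α : ℕ → ℝ}
    (hα : Summable fun n => |α n|) : Summable fun n => |α n| • y n := by
  refine Summable.of_norm_bounded hα fun n => ?_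
  rw [norm_smul, Real.norm_eq_abs, abs_abs]
  exact mul_le_of_le_one_right (abs_nonneg _) (hy1 n)

omit [CompleteSpace X] [PartialOrder X] [IsOrderedAddMonoid X] [PosSMulMono ℝ X] in
theorem tendsto_tail (y : ℕ → X) (α : ℕ → ℝ) : Tendsto (tail y α) atTop (𝓝 0) :=
  tendsto_sum_nat_add fun n => |α n| • y n

omit [CompleteSpace X] [IsOrderedAddMonoid X] [PosSMulMono ℝ X] in
theorem Rel.rel' {x y : ℕ → X} {α : ℕ → ℝ} {t : X} (h : Rel x y α t) : Rel' x α t :=
  ⟨tail y α, tendsto_tail y α, h⟩

/-- Existence for nonnegative coefficients. -/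
theorem exists_of_nonneg [OrderClosedTopology X]
    (hS : ∀ x : ℕ → X, Monotone x → BddAbove (range x) → ∃ s, IsLUB (range x) s)
    {x y : ℕ → X} (hx : ∀ n, 0 ≤ x n) (hxy : ∀ n, x n ≤ y n) (hy1 : ∀ n, ‖y n‖ ≤ 1)
    {α : ℕ → ℝ} (hα : Summable fun n => |α n|) (h0 : ∀ n, 0 ≤ α n) :
    ∃ t, ∀ N, psum x α N ≤ t ∧ t ≤ psum x α N + tail y α N := by
  have hsum := summable_abs_smul hy1 hα
  have hynn : ∀ n, 0 ≤ y n := fun n => (hx n).trans (hxy n)
  have hmono : Monotone (psum x α) := by
    refine monotone_nat_of_le_succ fun n => ?_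
    rw [psum, psum, Finset.sum_range_succ]
    exact le_add_of_nonneg_right (smul_nonneg (h0 n) (hx n))
  have hub : ∀ N M, psum x α M ≤ psum x α N + tail y α N := by
    intro N M
    have hnn : ∀ n, 0 ≤ |α n| • y n := fun n => smul_nonneg (abs_nonneg _) (hynn n)
    have htail : 0 ≤ tail y α N := tsum_nonneg fun n => hnn _
    rcases le_total M N with h | h
    · exact (hmono h).trans (le_add_of_nonneg_right htail)
    · obtain ⟨k, rfl⟩ := Nat.exists_eq_add_of_le h
      rw [psum, psum, Finset.sum_range_add]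
      gcongr
      have : ∑ n ∈ Finset.range k, α (N + n) • x (N + n) ≤
          ∑ n ∈ Finset.range k, |α (n + N)| • y (n + N) := by
        refine Finset.sum_le_sum fun n _ => ?_
        rw [add_comm N n, abs_of_nonneg (h0 _)]
        exact smul_le_smul_of_nonneg_left (hxy _) (h0 _)
      refine this.trans ?_
      refine Summable.sum_le_tsum _ (fun n _ => hnn _) ?_
      exact (summable_nat_add_iff (f := fun n => |α n| • y n) N).2 hsum
  obtain ⟨s, hs⟩ := hS (psum x α) hmono ⟨psum x α 0 + tail y α 0, by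
    rintro _ ⟨M, rfl⟩; exact hub 0 M⟩
  refine ⟨s, fun N => ⟨hs.1 ⟨N, rfl⟩, hs.2 ?_⟩⟩
  rintro _ ⟨M, rfl⟩
  exact hub N M

theorem exists_rel [OrderClosedTopology X]
    (hS : ∀ x : ℕ → X, Monotone x → BddAbove (range x) → ∃ s, IsLUB (range x) s)
    {x y : ℕ → X} (hx : ∀ n, 0 ≤ x n) (hxy : ∀ n, x n ≤ y n) (hy1 : ∀ n, ‖y n‖ ≤ 1)
    {α : ℕ → ℝ} (hα : Summable fun n => |α n|) :
    ∃ t, Rel x y α t := by
  have hynn : ∀ n, 0 ≤ y n := fun n => (hx n).trans (hxy n)
  have h1 : Summable fun n => |max (α n) 0| := by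
    refine Summable.of_nonneg_of_le (fun n => abs_nonneg _) (fun n => ?_) hα
    rw [abs_of_nonneg (le_max_right _ _)]
    exact max_le (le_abs_self _) (abs_nonneg _)
  have h2 : Summable fun n => |max (-α n) 0| := by
    refine Summable.of_nonneg_of_le (fun n => abs_nonneg _) (fun n => ?_) hα
    rw [abs_of_nonneg (le_max_right _ _)]
    exact max_le (neg_le_abs _) (abs_nonneg _)
  obtain ⟨t, ht⟩ := exists_of_nonneg hS hx hxy hy1 h1 fun n => le_max_right _ _
  obtain ⟨u, hu⟩ := exists_of_nonneg hS hx hxy hy1 h2 fun n => le_max_right _ _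
  refine ⟨t - u, fun N => ?_⟩
  have e : psum x α N = psum x (fun n => max (α n) 0) N - psum x (fun n => max (-α n) 0) N := by
    rw [psum, psum, psum, ← Finset.sum_sub_distrib]
    refine Finset.sum_congr rfl fun n _ => ?_
    rw [← sub_smul]
    congr 1
    rcases le_total (α n) 0 with h | h
    · rw [max_eq_right h, max_eq_left (neg_nonneg.2 h)]; ring
    · rw [max_eq_left h, max_eq_right (neg_nonpos.2 h)]; ring
  have hs := summable_abs_smul hy1 hα
  have hs1 := summable_abs_smul hy1 h1
  have hs2 := summable_abs_smul hy1 h2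
  have k1 : tail y (fun n => max (α n) 0) N ≤ tail y α N := by
    refine Summable.tsum_le_tsum (fun n => ?_)
      ((summable_nat_add_iff (f := fun n => |max (α n) 0| • y n) N).2 hs1)
      ((summable_nat_add_iff (f := fun n => |α n| • y n) N).2 hs)
    rw [← sub_nonneg, ← sub_smul]
    refine smul_nonneg ?_ (hynn _)
    rw [abs_of_nonneg (le_max_right (α (n + N)) 0), sub_nonneg]
    exact max_le (le_abs_self _) (abs_nonneg _)
  have k2 : tail y (fun n => max (-α n) 0) N ≤ tail y α N := by
    refine Summable.tsum_le_tsum (fun n => ?_)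
      ((summable_nat_add_iff (f := fun n => |max (-α n) 0| • y n) N).2 hs2)
      ((summable_nat_add_iff (f := fun n => |α n| • y n) N).2 hs)
    rw [← sub_nonneg, ← sub_smul]
    refine smul_nonneg ?_ (hynn _)
    rw [abs_of_nonneg (le_max_right (-α (n + N)) 0), sub_nonneg]
    exact max_le (neg_le_abs _) (abs_nonneg _)
  rw [e]
  obtain ⟨a1, a2⟩ := ht N
  obtain ⟨b1, b2⟩ := hu N
  constructor
  · rw [sub_sub]
    exact sub_le_sub a1 (b2.trans (by gcongr))
  · rw [sub_add_eq_add_sub]
    exact sub_le_sub (a2.trans (by gcongr)) b1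

end

/-- If every increasing order bounded sequence in an ordered Banach space has a supremum, then the
cone is normal. -/
theorem result {X : Type*} [NormedAddCommGroup X] [NormedSpace ℝ X] [CompleteSpace X]
    [PartialOrder X] [IsOrderedAddMonoid X] [PosSMulMono ℝ X]
    (hclosed : IsClosed {x : X | 0 ≤ x})
    (hS : ∀ x : ℕ → X, Monotone x → BddAbove (range x) → ∃ s, IsLUB (range x) s) :
    ∃ c > 0, ∀ x y : X, 0 ≤ x → x ≤ y → ‖x‖ ≤ c * ‖y‖ := by
  have := orderClosed hclosed
  by_contra hcon
  push Not at hcon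
  have hex : ∀ n : ℕ, ∃ x y : X, 0 ≤ x ∧ x ≤ y ∧ ‖y‖ ≤ 1 ∧ (n : ℝ) < ‖x‖ := by
    intro n
    obtain ⟨x, y, hx, hxy, hlt⟩ := hcon (n + 1) (by positivity)
    have hy0 : 0 < ‖y‖ := by
      rcases (norm_nonneg y).eq_or_lt with h | h
      · have hy : y = 0 := norm_eq_zero.1 h.symm
        have hx0 : x = 0 := le_antisymm (hy ▸ hxy) hx
        rw [hx0, hy] at hlt
        simp at hlt
      · exact h
    refine ⟨‖y‖⁻¹ • x, ‖y‖⁻¹ • y, smul_nonneg (by positivity) hx,
      smul_le_smul_of_nonneg_left hxy (by positivity), ?_, ?_⟩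
    · rw [norm_smul, norm_inv, norm_norm, inv_mul_cancel₀ hy0.ne']
    · rw [norm_smul, norm_inv, norm_norm, ← div_eq_inv_mul, lt_div_iff₀ hy0]
      nlinarith
  choose x y hx hxy hy1 hxn using hex
  have hsm : ∀ α : lp (fun _ : ℕ => ℝ) 1, Summable fun n => |α n| := by
    intro α
    have := (lp.memℓp α).summable (by simp)
    simpa using this
  have hex2 : ∀ α : lp (fun _ : ℕ => ℝ) 1, ∃ t, Rel x y (fun n => α n) t := fun α =>
    exists_rel hS hx hxy hy1 (hsm α)
  choose s hs using hex2
  let L : lp (fun _ : ℕ => ℝ) 1 →ₗ[ℝ] X :=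
    { toFun := s
      map_add' := fun α β => Rel'.eq (hs (α + β)).rel' ((hs α).rel'.add (hs β).rel')
      map_smul' := fun c α => Rel'.eq (hs (c • α)).rel' ((hs α).rel'.smul c) }
  have hL : ∀ α, L α = s α := fun _ => rfl
  have hcont : Continuous L := by
    refine LinearMap.continuous_of_seq_closed_graph _ fun u α t hu ht => ?_
    have key : Rel x y (fun n => α n) t := by
      intro N
      have hcoord : ∀ n, Tendsto (fun k => u k n) atTop (𝓝 (α n)) := by
        intro n
        have h1 : ∀ k, |u k n - α n| ≤ ‖u k - α‖ := fun k => by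
          have := lp.norm_apply_le_norm (p := 1) (by simp) (u k - α) n
          simpa using this
        rw [tendsto_iff_norm_sub_tendsto_zero] at hu ⊢
        exact squeeze_zero (fun k => norm_nonneg _) h1 hu
      have hp : Tendsto (fun k => psum x (fun n => u k n) N) atTop
          (𝓝 (psum x (fun n => α n) N)) := by
        refine tendsto_finsetSum _ fun n _ => ?_
        exact (hcoord n).smul_const _
      have htl : Tendsto (fun k => tail y (fun n => u k n) N) atTop
          (𝓝 (tail y (fun n => α n) N)) := by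
        rw [tendsto_iff_norm_sub_tendsto_zero] at hu ⊢
        refine squeeze_zero (fun k => norm_nonneg _) (fun k => ?_) hu
        have e1 := (summable_nat_add_iff (f := fun n => |u k n| • y n) N).2
          (summable_abs_smul hy1 (hsm (u k)))
        have e2 := (summable_nat_add_iff (f := fun n => |α n| • y n) N).2
          (summable_abs_smul hy1 (hsm α))
        have e3 : tail y (fun n => u k n) N - tail y (fun n => α n) N =
            ∑' n, (|u k (n + N)| - |α (n + N)|) • y (n + N) := by
          rw [tail, tail, ← e1.tsum_sub e2]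
          simp only [sub_smul]
        have e4 : Summable fun n => |(u k - α) n| := hsm (u k - α)
        have e5 := (summable_nat_add_iff (f := fun n => |(u k - α) n|) N).2 e4
        have e6 : ∀ n, ‖(|u k (n + N)| - |α (n + N)|) • y (n + N)‖ ≤ |(u k - α) (n + N)| := by
          intro n
          rw [norm_smul, Real.norm_eq_abs]
          refine (mul_le_of_le_one_right (abs_nonneg _) (hy1 _)).trans ?_
          exact abs_abs_sub_abs_le _ _
        rw [e3]
        refine (tsum_of_norm_bounded e5.hasSum e6).trans ?_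
        have e7 : ‖u k - α‖ = ∑' n, |(u k - α) n| := by
          rw [lp.norm_eq_tsum_rpow (by simp)]
          simp
        rw [e7, ← e4.sum_add_tsum_nat_add N]
        exact le_add_of_nonneg_left (Finset.sum_nonneg fun _ _ => abs_nonneg _)
      exact ⟨le_of_tendsto_of_tendsto' (hp.sub htl) ht fun k => (hs (u k) N).1,
        le_of_tendsto_of_tendsto' ht (hp.add htl) fun k => (hs (u k) N).2⟩
    exact Rel'.eq key.rel' (hs α).rel'
  obtain ⟨C, hC⟩ := (⟨L, hcont⟩ : lp (fun _ : ℕ => ℝ) 1 →L[ℝ] X).bound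
  obtain ⟨n, hn⟩ := exists_nat_gt C
  have h1 : s (lp.single 1 n (1 : ℝ)) = x n := by
    refine Rel'.eq (hs _).rel' ?_
    refine ⟨fun N => if N ≤ n then y n + x n else 0, ?_, fun N => ?_⟩
    · refine tendsto_const_nhds.congr' ?_
      filter_upwards [eventually_gt_atTop n] with N hN
      rw [if_neg (not_le.2 hN)]
    · have hval : psum x (fun k => (lp.single 1 n (1 : ℝ) : lp (fun _ : ℕ => ℝ) 1) k) N =
          if n < N then x n else 0 := by
        rw [psum]
        split_ifs with h
        · rw [Finset.sum_eq_single n]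
          · simp
          · intro b _ hb
            simp [hb]
          · intro h'
            exact absurd (Finset.mem_range.2 h) h'
        · refine Finset.sum_eq_zero fun b hb => ?_
          have : b ≠ n := fun e => h (e ▸ Finset.mem_range.1 hb)
          simp [this]
      rw [hval]
      have hyn : 0 ≤ y n := (hx n).trans (hxy n)
      dsimp only
      rcases lt_or_ge n N with h | h
      · rw [if_pos h, if_neg (not_le.2 h)]
        simp
      · rw [if_neg (not_lt.2 h), if_pos h]
        refine ⟨?_, ?_⟩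
        · rw [zero_sub]
          exact (neg_nonpos.2 (add_nonneg hyn (hx n))).trans (hx n)
        · rw [zero_add]
          exact le_add_of_nonneg_left hyn
  have h2 := hC.2 (lp.single 1 n (1 : ℝ))
  have h3 : ‖(lp.single 1 n (1 : ℝ) : lp (fun _ : ℕ => ℝ) 1)‖ = 1 := by
    rw [lp.norm_single (by simp)]
    simp
  have h4 : ‖x n‖ ≤ C * 1 := by
    rw [h3] at h2
    rw [← h1]
    exact h2
  have := hxn n
  linarith

end Pool.Agent.Results.MP_5127fd_an.Normal
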